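import Pool.Agent.H48.RN.Stmts3

set_option autoImplicit false
set_option linter.unusedSectionVars false

namespace Pool.RN

open Polynomial

theorem ACT_tw_map {F : Type} [Field F] [Fintype F] {L : Type} [Field L] [Algebra F L] (g : F[X]) :
    tw F (g.map (algebraMap F L)) = g.map (algebraMap F L) := by
  unfold tw
  rw [Polynomial.map_map]
  congr 1
  ext a
  exact (FiniteField.frobeniusAlgHom F L).commutes a

theorem ACT_tw_mul {F : Type} [Field F] [Fintype F] {L : Type} [Field L] [Algebra F L] (A B : L[X]) :
    tw F (A * B) = tw F A * tw F B := Polynomial.map_mul _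

theorem ACT_tw_sub {F : Type} [Field F] [Fintype F] {L : Type} [Field L] [Algebra F L] (A B : L[X]) :
    tw F (A - B) = tw F A - tw F B := Polynomial.map_sub _

theorem ACT_mod {L : Type} [Field L] {q : L[X]} (_ : q.Monic) (p : L[X]) :
    p %ₘ q = p - q * (p /ₘ q) := modByMonic_eq_sub_mul_div p q

theorem s_ACT (F : Type) [Field F] [Fintype F] : S_ACT F := by
  intro M hM hm L _ _ x Y hY
  have hM' : (M.map (algebraMap F L)).Monic := hM.map _
  refine ⟨?_, ?_, ?_, ?_⟩
  · intro g hg
    have hg' : IsCoprime (g.map (algebraMap F L)) (M.map (algebraMap F L)) := by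
      have := hg.map (mapRingHom (algebraMap F L))
      simpa using this
    refine ⟨?_, ?_, ?_⟩
    · have h := degree_modByMonic_lt (g.map (algebraMap F L) * Y) hM'
      rwa [degree_map_eq_of_injective (algebraMap F L).injective] at h
    · have h1 : IsCoprime (g.map (algebraMap F L) * Y) (M.map (algebraMap F L)) :=
        hg'.mul_left hY.cop
      unfold act
      rw [ACT_mod hM']
      have h2 := h1.add_mul_left_left (-((g.map (algebraMap F L) * Y) /ₘ M.map (algebraMap F L)))
      rwa [mul_neg, ← sub_eq_add_neg] at h2
    · unfold act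
      rw [ACT_mod hM']
      set Q := (g.map (algebraMap F L) * Y) /ₘ M.map (algebraMap F L)
      rw [ACT_tw_sub, ACT_tw_mul, ACT_tw_mul, ACT_tw_map, ACT_tw_map]
      have h3 : g.map (algebraMap F L) * tw F Y - M.map (algebraMap F L) * tw F Q -
          (X - C x) * (g.map (algebraMap F L) * Y - M.map (algebraMap F L) * Q) =
          (tw F Y - (X - C x) * Y) * g.map (algebraMap F L) +
          M.map (algebraMap F L) * ((X - C x) * Q - tw F Q) := by ring
      rw [h3]
      exact dvd_add (Dvd.dvd.mul_right hY.eq _) (dvd_mul_right _ _)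
  · intro g g'
    unfold act
    apply modByMonic_eq_of_dvd_sub hM'
    rw [ACT_mod hM' (g'.map (algebraMap F L) * Y)]
    refine ⟨-(g.map (algebraMap F L) * ((g'.map (algebraMap F L) * Y) /ₘ M.map (algebraMap F L))), ?_⟩
    rw [Polynomial.map_mul]
    ring
  · intro g g'
    constructor
    · intro h
      have h1 : M.map (algebraMap F L) ∣ (g.map (algebraMap F L) * Y) - (g'.map (algebraMap F L) * Y) := by
        unfold act at h
        rw [ACT_mod hM', ACT_mod hM'] at h
        refine ⟨(g.map (algebraMap F L) * Y) /ₘ M.map (algebraMap F L) -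
          (g'.map (algebraMap F L) * Y) /ₘ M.map (algebraMap F L), ?_⟩
        linear_combination h
      rw [← sub_mul] at h1
      have h2 := hY.cop.symm.dvd_of_dvd_mul_right h1
      rw [← Polynomial.map_sub] at h2
      exact (map_dvd_map (algebraMap F L) (algebraMap F L).injective hM).1 h2
    · intro h
      unfold act
      apply modByMonic_eq_of_dvd_sub hM'
      rw [← sub_mul, ← Polynomial.map_sub]
      exact Dvd.dvd.mul_right (Polynomial.map_dvd _ h) _
  · unfold act
    rw [Polynomial.map_one, one_mul, modByMonic_eq_self_iff hM',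
      degree_map_eq_of_injective (algebraMap F L).injective]
    exact hY.deg

end Pool.RN
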