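import Pool.Agent.H48.RN.Stmts3

set_option autoImplicit false
set_option linter.unusedSectionVars false

namespace Pool.RN

open Polynomial

theorem EVA_deg {F : Type} [Field F] {M : F[X]} (hM : M.Monic)
    {L : Type} [Field L] [Algebra F L] (P : L[X]) :
    (P %ₘ (M.map (algebraMap F L))).degree < M.degree := by
  have hM' : (M.map (algebraMap F L)).Monic := hM.map _
  have h := degree_modByMonic_lt P hM'
  rwa [degree_map_eq_of_injective (algebraMap F L).injective] at h

theorem EVA_modByMonic_C_mul {L : Type} [Field L] (q : L[X]) (c : L) (p : L[X]) :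
    (C c * p) %ₘ q = C c * (p %ₘ q) := by
  rw [← smul_eq_C_mul, ← smul_eq_C_mul, smul_modByMonic]

theorem EVA_sum_modByMonic {L : Type} [Field L] (q : L[X]) {ι : Type} (S : Finset ι) (f : ι → L[X]) :
    (∑ i ∈ S, f i) %ₘ q = ∑ i ∈ S, (f i %ₘ q) := by
  classical
  induction S using Finset.induction_on with
  | empty => simp
  | insert a S ha ih => rw [Finset.sum_insert ha, Finset.sum_insert ha, add_modByMonic, ih]

theorem EVA_coeff {F : Type} [Field F] {M : F[X]} (hM : M.Monic) (hm : 1 ≤ M.natDegree)
    {L : Type} [Field L] [Algebra F L] (Y : L[X]) (g : F[X]) (hY : Y.degree < M.degree) (i : ℕ) :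
    (act M g Y).coeff i = ∑ j : Fin M.natDegree, algebraMap F L (ag M g i j) * Y.coeff j := by
  have hY' : Y = ∑ j : Fin M.natDegree, C (Y.coeff j) * X ^ (j : ℕ) := by
    have h1 : Y.natDegree < M.natDegree := by
      by_cases h0 : Y = 0
      · subst h0; rw [natDegree_zero]; omega
      · exact natDegree_lt_natDegree h0 hY
    have := Y.as_sum_range_C_mul_X_pow' h1
    conv_lhs => rw [this, Finset.sum_range]
  have h2 : act M g Y = ∑ j : Fin M.natDegree, C (Y.coeff j) *
      (((g * X ^ (j : ℕ)) %ₘ M).map (algebraMap F L)) := by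
    unfold act
    conv_lhs => rw [hY', Finset.mul_sum, EVA_sum_modByMonic]
    refine Finset.sum_congr rfl (fun j _ => ?_)
    rw [show g.map (algebraMap F L) * (C (Y.coeff j) * X ^ (j : ℕ)) =
      C (Y.coeff j) * ((g * X ^ (j : ℕ)).map (algebraMap F L)) by
        rw [Polynomial.map_mul, Polynomial.map_pow, map_X]; ring,
      EVA_modByMonic_C_mul, Polynomial.map_modByMonic (algebraMap F L) hM]
  rw [h2, finsetSum_coeff]
  refine Finset.sum_congr rfl (fun j _ => ?_)
  rw [coeff_C_mul, coeff_map, mul_comm]
  rfl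

theorem s_EVA (F k : Type) [Field F] [Fintype F] [Field k] [Algebra F k] : S_EVA F k := by
  intro M hM hm L _ _ _ _ x Y g hY
  refine ⟨EVA_deg hM _, fun i _ => EVA_coeff hM hm Y g hY i, fun P => ?_⟩
  have h : ev (k := k) M.natDegree x (act M g Y) = (ev (k := k) M.natDegree x Y).comp (sub k M g) := by
    apply MvPolynomial.algHom_ext
    rintro (_ | i)
    · simp [ev, sub]
    · simp only [ev, sub, AlgHom.comp_apply, MvPolynomial.aeval_X, Option.elim_some, map_sum, map_mul,
        MvPolynomial.aeval_C]
      rw [EVA_coeff hM hm Y g hY i]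
      refine Finset.sum_congr rfl (fun j _ => ?_)
      rw [← IsScalarTower.algebraMap_apply F k L]
  rw [h]
  rfl

end Pool.RN
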