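import Pool.Agent.H48.RN.Stmts3

set_option autoImplicit false
set_option linter.unusedSectionVars false

namespace Pool.RN

open Polynomial

theorem MLT_wt_add {F : Type} [Field F] [Fintype F] {m : ℕ} (s t : Option (Fin m) →₀ ℕ) :
    wt F (s + t) = wt F s + wt F t := by
  unfold wt
  simp only [Finsupp.add_apply, Finset.sum_add_distrib]
  ring

theorem s_MLT (F k : Type) [Field F] [Fintype F] [Field k] [Algebra F k] : S_MLT F k := by
  classical
  intro m d e P Q hP hQ s hs
  have h := MvPolynomial.support_mul P Q hs
  obtain ⟨a, ha, b, hb, rfl⟩ := Finset.mem_add.1 h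
  rw [MLT_wt_add]
  exact add_le_add (hP a ha) (hQ b hb)

end Pool.RN
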