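import Pool.Agent.H48.RN.Stmts3

set_option autoImplicit false
set_option linter.unusedSectionVars false

namespace Pool.RN

open Polynomial

section
variable {F k : Type} [Field F] [Fintype F] [Field k] [Algebra F k]

theorem SWT_mono {m d e : ℕ} (h : d ≤ e) : WW F k m d ≤ WW F k m e :=
  fun _ hP s hs => (hP s hs).trans h

theorem SWT_C (m : ℕ) (c : k) : (MvPolynomial.C c : PP k m) ∈ WW F k m 0 := by
  classical
  intro s hs
  rw [MvPolynomial.mem_support_iff, MvPolynomial.coeff_C] at hs
  have : s = 0 := by
    by_contra h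
    exact hs (if_neg (fun h' => h h'.symm))
  subst this
  simp [wt]

theorem SWT_Xnone (m : ℕ) : (MvPolynomial.X none : PP k m) ∈ WW F k m (Fintype.card F - 1) := by
  classical
  intro s hs
  rw [MvPolynomial.support_X, Finset.mem_singleton] at hs
  subst hs
  simp [wt]

theorem SWT_Xsome (m : ℕ) (j : Fin m) : (MvPolynomial.X (some j) : PP k m) ∈ WW F k m 1 := by
  classical
  intro s hs
  rw [MvPolynomial.support_X, Finset.mem_singleton] at hs
  subst hs
  have : ∑ i : Fin m, (Finsupp.single (some j) 1 : Option (Fin m) →₀ ℕ) (some i) = 1 := by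
    rw [Finset.sum_eq_single j]
    · simp
    · intro b _ hb
      rw [Finsupp.single_apply, if_neg (fun h => hb (Option.some_injective _ h).symm)]
    · intro h
      exact absurd (Finset.mem_univ j) h
  simp only [wt]
  rw [this]
  simp

theorem SWT_mul (h : S_MLT F k) {m d e : ℕ} {P Q : PP k m} (hP : P ∈ WW F k m d)
    (hQ : Q ∈ WW F k m e) : P * Q ∈ WW F k m (d + e) := h m d e P Q hP hQ

theorem SWT_pow (h : S_MLT F k) {m d : ℕ} {P : PP k m} (hP : P ∈ WW F k m d) (n : ℕ) :
    P ^ n ∈ WW F k m (d * n) := by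
  induction n with
  | zero => simpa using SWT_C (F := F) m (1 : k)
  | succ n ih =>
    rw [pow_succ, Nat.mul_succ]
    exact SWT_mul h ih hP

theorem SWT_prod (h : S_MLT F k) {m : ℕ} {ι : Type} (S : Finset ι) (f : ι → PP k m) (w : ι → ℕ)
    (hf : ∀ i ∈ S, f i ∈ WW F k m (w i)) : ∏ i ∈ S, f i ∈ WW F k m (∑ i ∈ S, w i) := by
  classical
  induction S using Finset.induction_on with
  | empty => simpa using SWT_C (F := F) m (1 : k)
  | insert a S ha ih =>
    rw [Finset.prod_insert ha, Finset.sum_insert ha]
    exact SWT_mul h (hf a (Finset.mem_insert_self a S))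
      (ih (fun i hi => hf i (Finset.mem_insert_of_mem hi)))

end

theorem s_SWT (F k : Type) [Field F] [Fintype F] [Field k] [Algebra F k] (hMLT : S_MLT F k) :
    S_SWT F k := by
  classical
  intro M g d P hP
  have hlin : ∀ i : Fin M.natDegree, (∑ j : Fin M.natDegree,
        MvPolynomial.C (algebraMap F k (ag M g i j)) * MvPolynomial.X (some j) : PP k M.natDegree) ∈
        WW F k M.natDegree 1 := by
    intro i
    refine Submodule.sum_mem _ (fun j _ => ?_)
    have := SWT_mul hMLT (SWT_C (F := F) M.natDegree (algebraMap F k (ag M g i j)))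
      (SWT_Xsome (F := F) (k := k) M.natDegree j)
    simpa using this
  have hP' : P = ∑ s ∈ P.support, MvPolynomial.monomial s (P.coeff s) := P.as_sum
  rw [hP', map_sum]
  refine Submodule.sum_mem _ (fun s hs => ?_)
  apply SWT_mono (hP s hs)
  unfold sub
  rw [MvPolynomial.aeval_monomial, Finsupp.prod_fintype _ _ (fun i => pow_zero _),
    Fintype.prod_option]
  have h1 : (algebraMap k (PP k M.natDegree)) (MvPolynomial.coeff s P) ∈ WW F k M.natDegree 0 :=
    SWT_C (F := F) M.natDegree _
  have h2 := SWT_pow hMLT (SWT_Xnone (F := F) (k := k) M.natDegree) (s none)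
  have h3 : (∏ i : Fin M.natDegree, (∑ j : Fin M.natDegree,
        MvPolynomial.C (algebraMap F k (ag M g i j)) * MvPolynomial.X (some j) : PP k M.natDegree) ^ (s (some i))) ∈
        WW F k M.natDegree (∑ i : Fin M.natDegree, s (some i)) := by
    apply SWT_prod hMLT
    intro i _
    have := SWT_pow hMLT (hlin i) (s (some i))
    rwa [one_mul] at this
  have h4 := SWT_mul hMLT h1 (SWT_mul hMLT h2 h3)
  rw [zero_add] at h4
  exact h4

end Pool.RN
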